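import Mathlib
import Pool.Agent.X277.FI.Ex

/-!
# A finite-dimensional Hopf algebra extension with infinite factorization index

Over `k = 𝔽₂(s,t)` let `E` be the restricted enveloping algebra of the Heisenberg Lie algebra with
`x² = y² = 0`, `z² = z`, `yx = xy + z`, `z` central (dimension 8, `x`, `y`, `z` primitive) and
`A = k[x]/(x²)`. For `c ∈ k` the elements `u = y + c x` and `z` generate a Hopf subalgebra
`H_c = k[u,z]/(u² - c z, z² - z)` of dimension 4 which is a complement of `A`. An isomorphism
`H_c ≅ H_{c'}` forces `c = α² c' + β²`, so for `c_n = s + t^(2n+1)` the `H_{c_n}` are pairwise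
non-isomorphic.
-/

open TensorProduct

namespace Pool.Agent.Results.MP_d8e1db_al.InfiniteIndex

/-- `iH : H → E` makes `H` a complement of `A` (embedded by `iA`) in the Hopf algebra `E`: `iH` is an
injective bialgebra map (so that `H` is isomorphic to a Hopf subalgebra of `E`), and
`a ⊗ h ↦ a h`, `A ⊗ H → E`, is bijective. -/
def IsComplement {k E A H : Type} [Field k] [Ring E] [HopfAlgebra k E] [Ring A] [HopfAlgebra k A]
    [Ring H] [HopfAlgebra k H] (iA : A →ₐc[k] E) (iH : H →ₐc[k] E) : Prop :=
  Function.Injective iH ∧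
    Function.Bijective
      (LinearMap.mul' k E ∘ₗ TensorProduct.map (iA : A →ₗ[k] E) (iH : H →ₗ[k] E))

/-- **Infinite factorization index.** There are a field `k`, a finite-dimensional Hopf algebra `E`
over `k`, a Hopf subalgebra `A` of `E`, and infinitely many pairwise non-isomorphic Hopf algebras
which are complements of `A` in `E`. -/
theorem result :
    ∃ (k : Type) (_ : Field k) (E A : Type) (_ : Ring E) (_ : HopfAlgebra k E) (_ : Ring A)
      (_ : HopfAlgebra k A) (iA : A →ₐc[k] E),
      Module.Finite k E ∧ Function.Injective iA ∧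
      ∃ (H : ℕ → Type) (_ : ∀ n, Ring (H n)) (_ : ∀ n, HopfAlgebra k (H n))
        (iH : ∀ n, H n →ₐc[k] E),
        (∀ n, IsComplement iA (iH n)) ∧ ∀ m n, m ≠ n → IsEmpty (H m ≃ₐc[k] H n) := by
  refine ⟨X277.FI.K2, inferInstance, X277.FI.PH (X277.FI.RE X277.FI.K2),
    X277.FI.PH (X277.FI.RA X277.FI.K2), inferInstance, inferInstance, inferInstance,
    inferInstance, X277.FI.iA X277.FI.K2, inferInstance, X277.FI.iA_injective,
    fun n => X277.FI.PH (X277.FI.RH (X277.FI.cc n)), fun n => inferInstance,
    fun n => inferInstance, fun n => X277.FI.iH (X277.FI.cc n), fun n => ⟨X277.FI.iH_injective _,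
      X277.FI.mm_bijective _⟩, fun m n hmn => ⟨fun φ => ?_⟩⟩
  obtain ⟨α, β, h⟩ := X277.FI.iso_rel _ _ φ
  exact X277.FI.cc_ne m n hmn α β h

end Pool.Agent.Results.MP_d8e1db_al.InfiniteIndex
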